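import Mathlib
import Pool.Agent.R47.OddCube

/-!
# Odd independent sets in cubes from pairs of sets whose sum covers every element an odd number of times
-/

set_option autoImplicit false

open Finset
open Pool.Agent.R47.OddCube

namespace Pool.Agent.K1H98.CU

variable {d : ℕ}

theorem lowerSet {W : Type} [Fintype W] [DecidableEq W] [AddCommGroup W] [Module (ZMod 2) W]
    (M : ℕ) (hcW : Fintype.card W = 2 ^ M) (hMd : M + 1 ≤ d) (hd : Even d)
    (A : Finset W) (g : Fin d → W)
    (hg : ∀ w, Odd (univ.filter fun i => w + g i ∈ A).card)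
    (hsurj0 : ∀ b : ZMod 2 × W, ∃ x : Fin d → ZMod 2, (par x, ∑ i, x i • g i) = b) :
    (2 ^ M - A.card) * 2 ^ (d - 1 - M) ≤ alphaOd (cube d) := by
  classical
  let φ : (Fin d → ZMod 2) →+ ZMod 2 × W :=
    { toFun := fun x => (par x, ∑ i, x i • g i)
      map_zero' := by simp [par]
      map_add' := fun x y => by
        simp [par_add, add_smul, sum_add_distrib] }
  have hφe : ∀ i, φ (e i) = (1, g i) := by
    intro i
    show (par (e i), ∑ j, (e i : Fin d → ZMod 2) j • g j) = (1, g i)
    rw [par_e]
    congr 1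
    rw [sum_eq_single i]
    · simp [e]
    · intro j _ hj
      simp [e, hj]
    · intro h
      exact absurd (mem_univ i) h
  have hsurj : Function.Surjective φ := fun b => hsurj0 b
  have hfib : ∀ b : ZMod 2 × W, (univ.filter fun x => φ x = b).card =
      (univ.filter fun x => φ x = 0).card := by
    intro b
    exact AddMonoidHom.card_fiber_eq_of_mem_range φ (hsurj b) (hsurj 0)
  have htot : ∀ B : Finset (ZMod 2 × W), (univ.filter fun x => φ x ∈ B).card =
      B.card * (univ.filter fun x => φ x = 0).card := by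
    intro B
    have h1 : (univ.filter fun x => φ x ∈ B).card =
        ∑ b ∈ B, ((univ.filter fun x => φ x ∈ B).filter fun x => φ x = b).card :=
      card_eq_sum_card_fiberwise (fun x hx => by simpa using hx)
    rw [h1]
    have h2 : ∀ b ∈ B, ((univ.filter fun x => φ x ∈ B).filter fun x => φ x = b).card =
        (univ.filter fun x => φ x = 0).card := by
      intro b hb
      rw [← hfib b, filter_filter]
      congr 1
      ext x
      simp only [mem_filter, mem_univ, true_and]
      constructor
      · exact fun h => h.2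
      · intro h
        exact ⟨h ▸ hb, h⟩
    rw [sum_congr rfl h2, sum_const, smul_eq_mul]
  have hker : (univ.filter fun x => φ x = 0).card = 2 ^ (d - 1 - M) := by
    have h1 := htot univ
    simp only [mem_univ, filter_true] at h1
    have hV : (univ : Finset (Fin d → ZMod 2)).card = 2 ^ d := by
      rw [card_univ]; simp [ZMod.card]
    have hB : (univ : Finset (ZMod 2 × W)).card = 2 ^ (M + 1) := by
      rw [card_univ, Fintype.card_prod, hcW, ZMod.card, pow_succ]
      ring
    rw [hV, hB] at h1
    have h2 : 2 ^ d = 2 ^ (M + 1) * 2 ^ (d - 1 - M) := by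
      rw [← pow_add]
      congr 1
      omega
    rw [h2] at h1
    exact (Nat.eq_of_mul_eq_mul_left (by positivity) h1).symm
  let B : Finset (ZMod 2 × W) := univ.filter fun b => b.1 = 0 ∧ b.2 ∉ A
  have hBc : B.card = 2 ^ M - A.card := by
    have : B = ((univ : Finset W) \ A).map ⟨fun w => ((0 : ZMod 2), w), fun a b h => by
        simpa using h⟩ := by
      ext ⟨a, w⟩
      simp only [B, mem_filter, mem_univ, true_and, mem_map, mem_sdiff]
      constructor
      · rintro ⟨h1, h2⟩
        refine ⟨w, h2, ?_⟩
        rw [h1]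
        rfl
      · rintro ⟨w', h2, h3⟩
        have h4 : (0 : ZMod 2) = a := congrArg Prod.fst h3
        have h5 : w' = w := congrArg Prod.snd h3
        exact ⟨h4.symm, h5 ▸ h2⟩
    rw [this, card_map, card_sdiff_of_subset (subset_univ _), card_univ, hcW]
  let S : Finset (Fin d → ZMod 2) := univ.filter fun x => φ x ∈ B
  have hS : S.card = (2 ^ M - A.card) * 2 ^ (d - 1 - M) := by
    show (univ.filter fun x => φ x ∈ B).card = _
    rw [htot B, hBc, hker]
  have hmemS : ∀ x, x ∈ S ↔ par x = 0 ∧ (φ x).2 ∉ A := by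
    intro x
    simp only [S, B, mem_filter, mem_univ, true_and]
    exact Iff.rfl
  refine le_csSup (alphaOd_bddAbove _) ⟨S, ⟨?_, ?_⟩, hS⟩
  · intro x hx y hy _ hadj
    obtain ⟨i, rfl⟩ := (adj_iff _ _).1 hadj
    have h1 := ((hmemS _).1 (mem_coe.1 hx)).1
    have h2 := ((hmemS _).1 (mem_coe.1 hy)).1
    rw [par_add_e, h1, zero_add] at h2
    exact one_ne_zero h2
  · intro v hv
    have hpar : par v = 0 ∨ par v = 1 := by
      generalize par v = a
      revert a
      decide
    rcases hpar with hpar | hpar
    · left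
      rw [Set.eq_empty_iff_forall_notMem]
      rintro u ⟨hadj, hu⟩
      obtain ⟨i, rfl⟩ := (adj_iff _ _).1 hadj
      have h2 := ((hmemS _).1 hu).1
      rw [par_add_e, hpar, zero_add] at h2
      exact one_ne_zero h2
    · right
      rw [ncard_nbr]
      have h1 : (univ.filter fun i => v + e i ∈ S) =
          univ.filter fun i => ¬ ((φ v).2 + g i ∈ A) := by
        ext i
        simp only [mem_filter, mem_univ, true_and]
        rw [hmemS, par_add_e, hpar, map_add, hφe]
        have h2 : (1 : ZMod 2) + 1 = 0 := by decide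
        simp only [h2, true_and, Prod.snd_add]
      rw [h1, filter_not, card_sdiff_of_subset (filter_subset _ _), card_univ, Fintype.card_fin]
      have h3 := hg (φ v).2
      have h4 : (univ.filter fun i => (φ v).2 + g i ∈ A).card ≤ d := by
        refine le_trans (card_le_univ _) (by rw [Fintype.card_fin])
      obtain ⟨a, ha⟩ := hd
      obtain ⟨b, hb⟩ := h3
      exact ⟨a - b - 1, by omega⟩

/-- A map with odd fibres exactly over `H`. -/
theorem exists_fibres {W : Type} [DecidableEq W] (H : Finset W) (w0 : W) (d k : ℕ)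
    (hd : d = H.card + 2 * k) :
    ∃ g : Fin d → W, ∀ w, (Odd (univ.filter fun i => g i = w).card ↔ w ∈ H) := by
  classical
  have hcard : Fintype.card (H ⊕ (Fin k ⊕ Fin k)) = d := by
    rw [Fintype.card_sum, Fintype.card_sum, Fintype.card_fin, Fintype.card_coe]
    omega
  let ε : H ⊕ (Fin k ⊕ Fin k) ≃ Fin d := Fintype.equivFinOfCardEq hcard
  let f : H ⊕ (Fin k ⊕ Fin k) → W := Sum.elim (fun x => (x : W)) (fun _ => w0)
  refine ⟨fun i => f (ε.symm i), fun w => ?_⟩
  have h1 : (univ.filter fun i => f (ε.symm i) = w).card =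
      (univ.filter fun j : H ⊕ (Fin k ⊕ Fin k) => f j = w).card := by
    refine card_equiv ε.symm ?_
    intro i
    simp
  rw [h1]
  have h2 : (univ.filter fun j : H ⊕ (Fin k ⊕ Fin k) => f j = w).card =
      (univ.filter fun j : H => (j : W) = w).card +
        (univ.filter fun _ : Fin k ⊕ Fin k => w0 = w).card := by
    rw [← card_disjSum, ← univ_disjSum_univ]
    congr 1
    ext j
    rcases j with j | j
    · simp [f]
    · by_cases hw : w0 = w <;> simp [f, hw]
  rw [h2]
  have h3 : (univ.filter fun j : H => (j : W) = w).card = if w ∈ H then 1 else 0 := by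
    split_ifs with hw
    · rw [card_eq_one]
      refine ⟨⟨w, hw⟩, ?_⟩
      ext j
      simp [Subtype.ext_iff]
    · rw [card_eq_zero, filter_eq_empty_iff]
      intro j _ hj
      exact hw (hj ▸ j.2)
  have h4 : Even (univ.filter fun _ : Fin k ⊕ Fin k => w0 = w).card := by
    by_cases hw : w0 = w
    · simp only [hw, filter_true, card_univ, Fintype.card_sum, Fintype.card_fin]
      exact ⟨k, rfl⟩
    · simp [hw]
  rw [h3]
  split_ifs with hw
  · exact ⟨fun _ => hw, fun _ => Odd.add_even odd_one h4⟩
  · refine ⟨fun h => ?_, fun h => absurd h hw⟩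
    rw [zero_add] at h
    exact absurd h4 (Nat.not_even_iff_odd.2 h)

/-- The bound from a pair of sets. -/
theorem lowerPair (m : ℕ) (h A : Finset (Fin m → ZMod 2)) (h0 : (0 : Fin m → ZMod 2) ∈ h)
    (hb : ∀ j, (Pi.single j 1 : Fin m → ZMod 2) ∈ h)
    (hodd : ∀ w, Odd (A.filter fun a => w + a ∈ h).card) (heven : Even h.card)
    (r d : ℕ) (hd : Even d) (hdr : h.card * 2 ^ r ≤ d) (hMd : m + r + 1 ≤ d) :
    (2 ^ (m + r) - A.card) * 2 ^ (d - 1 - (m + r)) ≤ alphaOd (cube d) := by
  classical
  let U := Fin r → ZMod 2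
  let W := (Fin m → ZMod 2) × U
  let H : Finset W := h ×ˢ (univ : Finset U)
  have hH : H.card = h.card * 2 ^ r := by
    rw [card_product, card_univ]
    simp [U, ZMod.card]
  have hev : Even (d - H.card) := by
    rw [hH]
    exact (Nat.even_sub hdr).2 ⟨fun _ => heven.mul_right _, fun _ => hd⟩
  obtain ⟨c, hc⟩ := hev
  obtain ⟨g, hg⟩ := exists_fibres H (0 : W) d c (by rw [hH] at hc ⊢; omega)
  let A' : Finset W := A.map ⟨fun a => (a, 0), fun a b hab => congrArg Prod.fst hab⟩
  have hA' : A'.card = A.card := card_map _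
  have hself : ∀ w : W, w + w = 0 := fun w => ZModModule.add_self w
  have hiff : ∀ w x b : W, w + x = b ↔ x = w + b := by
    intro w x b
    constructor
    · rintro rfl
      rw [← add_assoc, hself, zero_add]
    · rintro rfl
      rw [← add_assoc, hself, zero_add]
  have hg' : ∀ w, Odd (univ.filter fun i => w + g i ∈ A').card := by
    intro w
    have h1 : (univ.filter fun i => w + g i ∈ A').card =
        ∑ b ∈ A', ((univ.filter fun i => w + g i ∈ A').filter fun i => w + g i = b).card :=
      card_eq_sum_card_fiberwise (fun x hx => by simpa using hx)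
    rw [h1, odd_sum_iff_odd_card_odd]
    have h2 : (A'.filter fun b => Odd ((univ.filter fun i => w + g i ∈ A').filter
        fun i => w + g i = b).card) = A'.filter fun b => w + b ∈ H := by
      ext b
      simp only [mem_filter]
      refine and_congr_right fun hb' => ?_
      have h3 : ((univ.filter fun i => w + g i ∈ A').filter fun i => w + g i = b) =
          univ.filter fun i => g i = w + b := by
        ext i
        simp only [mem_filter, mem_univ, true_and]
        constructor
        · rintro ⟨-, h⟩
          exact (hiff _ _ _).1 h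
        · intro h
          have h' := (hiff w (g i) b).2 h
          exact ⟨h' ▸ hb', h'⟩
      rw [h3]
      exact hg _
    rw [h2]
    have h4 : (A'.filter fun b => w + b ∈ H).card = (A.filter fun a => w.1 + a ∈ h).card := by
      rw [filter_map, card_map]
      congr 1
      ext a
      simp only [mem_filter]
      refine and_congr_right fun _ => ?_
      show w + (a, (0 : U)) ∈ H ↔ _
      rw [mem_product]
      exact ⟨fun h => h.1, fun h => ⟨h, mem_univ _⟩⟩
    rw [h4]
    exact hodd w.1
  have hfind : ∀ w ∈ H, ∃ i, g i = w := by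
    intro w hw
    have h1 := (hg w).2 hw
    obtain ⟨i, hi⟩ := card_pos.1 h1.pos
    exact ⟨i, (mem_filter.1 hi).2⟩
  have hsurj : ∀ b : ZMod 2 × W, ∃ x : Fin d → ZMod 2, (par x, ∑ i, x i • g i) = b := by
    rintro ⟨a, w, u⟩
    have hI : ∀ j : Fin m, ∃ i, g i = ((Pi.single j 1 : Fin m → ZMod 2), (0 : U)) := fun j =>
      hfind _ (mem_product.2 ⟨hb j, mem_univ _⟩)
    choose I hI using hI
    obtain ⟨iu, hiu⟩ := hfind ((0 : Fin m → ZMod 2), u) (mem_product.2 ⟨h0, mem_univ _⟩)
    obtain ⟨i0, hi0⟩ := hfind ((0 : Fin m → ZMod 2), (0 : U)) (mem_product.2 ⟨h0, mem_univ _⟩)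
    let φ : (Fin d → ZMod 2) →ₗ[ZMod 2] ZMod 2 × W :=
      { toFun := fun x => (par x, ∑ i, x i • g i)
        map_add' := fun x y => by
          simp [par_add, add_smul, sum_add_distrib]
        map_smul' := fun c x => by
          simp [par, mul_sum, smul_sum, mul_smul] }
    have hφe : ∀ i, φ (e i) = (1, g i) := by
      intro i
      show (par (e i), ∑ j, (e i : Fin d → ZMod 2) j • g j) = (1, g i)
      rw [par_e]
      congr 1
      rw [sum_eq_single i]
      · simp [e]
      · intro j _ hj
        simp [e, hj]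
      · intro h
        exact absurd (mem_univ i) h
    refine ⟨(∑ j, w j • e (I j)) + e iu + (a + 1 + ∑ j, w j) • e i0, ?_⟩
    show φ _ = _
    rw [map_add, map_add, map_sum, map_smul, hφe, hφe, hiu, hi0]
    simp only [map_smul, hφe, hI]
    have e1 : (∑ j, w j • ((1 : ZMod 2), ((Pi.single j 1 : Fin m → ZMod 2), (0 : U)))) =
        (∑ j, w j, (w, 0)) := by
      refine Prod.ext ?_ (Prod.ext ?_ ?_)
      · rw [Prod.fst_sum]
        exact sum_congr rfl fun j _ => mul_one _
      · rw [Prod.snd_sum, Prod.fst_sum]
        funext i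
        rw [Finset.sum_apply]
        simp [Pi.single_apply]
      · rw [Prod.snd_sum, Prod.snd_sum]
        exact sum_eq_zero fun j _ => smul_zero _
    rw [e1]
    have h2 : ∀ s a : ZMod 2, s + 1 + (a + 1 + s) = a := by decide
    refine Prod.ext ?_ (Prod.ext ?_ ?_)
    · show (∑ j, w j) + 1 + (a + 1 + ∑ j, w j) * 1 = a
      rw [mul_one]
      exact h2 _ _
    · show w + 0 + (a + 1 + ∑ j, w j) • (0 : Fin m → ZMod 2) = w
      rw [smul_zero, add_zero, add_zero]
    · show (0 : U) + u + (a + 1 + ∑ j, w j) • (0 : U) = u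
      rw [smul_zero, add_zero, zero_add]
  have hcW : Fintype.card W = 2 ^ (m + r) := by
    rw [Fintype.card_prod]
    simp [U, ZMod.card, pow_add]
  have := lowerSet (d := d) (m + r) hcW hMd hd A' g hg' hsurj
  rwa [hA'] at this

end Pool.Agent.K1H98.CU
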