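import Mathlib
import Pool.Agent.K1H98.CU.Low

/-!
# Sets of 12 and 28 elements of `𝔽₂⁸` whose sums cover every element an odd number of times
-/

set_option autoImplicit false

open Finset
open Pool.Agent.R47.OddCube

namespace Pool.Agent.K1H98.CU

/-- binary digits -/
def enc (m n : ℕ) : Fin m → ZMod 2 := fun j => if n.testBit j then 1 else 0

theorem enc_xor (m a b : ℕ) : enc m (a ^^^ b) = enc m a + enc m b := by
  funext j
  simp only [enc, Pi.add_apply, Nat.testBit_xor]
  cases a.testBit j <;> cases b.testBit j <;> first | simp; done | (simp; decide)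

theorem enc_inj {m a b : ℕ} (ha : a < 2 ^ m) (hb : b < 2 ^ m) (h : enc m a = enc m b) : a = b := by
  refine Nat.eq_of_testBit_eq fun j => ?_
  by_cases hj : j < m
  · have h1 := congrFun h ⟨j, hj⟩
    simp only [enc] at h1
    cases ha' : a.testBit j <;> cases hb' : b.testBit j <;> simp_all
  · rw [Nat.testBit_eq_false_of_lt (lt_of_lt_of_le ha (Nat.pow_le_pow_right two_pos (not_lt.1 hj))),
      Nat.testBit_eq_false_of_lt (lt_of_lt_of_le hb (Nat.pow_le_pow_right two_pos (not_lt.1 hj)))]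

theorem enc_surj (m : ℕ) (w : Fin m → ZMod 2) : ∃ n < 2 ^ m, enc m n = w := by
  have h1 : Function.Bijective (fun n : Fin (2 ^ m) => enc m n) := by
    rw [Fintype.bijective_iff_injective_and_card]
    refine ⟨fun a b h => Fin.ext (enc_inj a.2 b.2 h), ?_⟩
    simp [ZMod.card]
  obtain ⟨n, hn⟩ := h1.2 w
  exact ⟨n, n.2, hn⟩

theorem pairBound (m : ℕ) (h A : Finset ℕ) (hh : ∀ x ∈ h, x < 2 ^ m) (hA : ∀ x ∈ A, x < 2 ^ m)
    (h0 : 0 ∈ h) (hb : ∀ j < m, 2 ^ j ∈ h)
    (hodd : ∀ n < 2 ^ m, Odd (A.filter fun a => n ^^^ a ∈ h).card) (heven : Even h.card)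
    (r d : ℕ) (hd : Even d) (hdr : h.card * 2 ^ r ≤ d) (hMd : m + r + 1 ≤ d) :
    (2 ^ (m + r) - A.card) * 2 ^ (d - 1 - (m + r)) ≤ alphaOd (cube d) := by
  have hch : (h.image (enc m)).card = h.card :=
    card_image_of_injOn fun a ha b hb hab => enc_inj (hh a ha) (hh b hb) hab
  have hcA : (A.image (enc m)).card = A.card :=
    card_image_of_injOn fun a ha b hb hab => enc_inj (hA a ha) (hA b hb) hab
  have key := lowerPair m (h.image (enc m)) (A.image (enc m)) ?_ ?_ ?_ (by rw [hch]; exact heven)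
    r d hd (by rw [hch]; exact hdr) hMd
  · rwa [hcA] at key
  · refine mem_image.2 ⟨0, h0, ?_⟩
    funext j
    simp [enc]
  · intro j
    refine mem_image.2 ⟨2 ^ (j : ℕ), hb j j.2, ?_⟩
    funext i
    simp only [enc, Nat.testBit_two_pow, Pi.single_apply]
    by_cases hij : i = j
    · subst hij
      simp
    · have : (j : ℕ) ≠ i := fun h => hij (Fin.ext h.symm)
      simp [hij, this]
  · intro w
    obtain ⟨n, hn, rfl⟩ := enc_surj m w
    have h1 : ((A.image (enc m)).filter fun a => enc m n + a ∈ h.image (enc m)) =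
        (A.filter fun a => n ^^^ a ∈ h).image (enc m) := by
      ext x
      simp only [mem_filter, mem_image]
      constructor
      · rintro ⟨⟨a, ha, rfl⟩, b, hb', hab⟩
        refine ⟨a, ⟨ha, ?_⟩, rfl⟩
        rw [← enc_xor] at hab
        have := enc_inj (hh b hb') (Nat.xor_lt_two_pow hn (hA a ha)) hab
        rwa [← this]
      · rintro ⟨a, ⟨ha, hb'⟩, rfl⟩
        exact ⟨⟨a, ha, rfl⟩, _, hb', enc_xor _ _ _⟩
    rw [h1, card_image_of_injOn]
    · exact hodd n hn
    · intro a ha b hb' hab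
      exact enc_inj (hA a (mem_filter.1 ha).1) (hA b (mem_filter.1 hb').1) hab

def h12 : Finset ℕ := {0, 1, 2, 4, 8, 16, 32, 45, 64, 124, 128, 179}

def t28 : Finset ℕ := {1, 15, 16, 32, 34, 49, 55, 59, 68, 82, 85, 101, 110, 116, 141, 143, 158, 160, 174, 181, 185, 191, 202, 208, 219, 235, 236, 250}

theorem odd28 : ∀ n < 2 ^ 8, Odd (t28.filter fun a => n ^^^ a ∈ h12).card := by
  decide +kernel

theorem bound12 (r d : ℕ) (hd : Even d) (hdr : 12 * 2 ^ r ≤ d) :
    (2 ^ (8 + r) - 28) * 2 ^ (d - 1 - (8 + r)) ≤ alphaOd (cube d) := by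
  have hc : h12.card = 12 := by decide +kernel
  have hc' : t28.card = 28 := by decide +kernel
  have h1 : r < 2 ^ r := Nat.lt_two_pow_self
  have := pairBound 8 h12 t28 (by decide +kernel) (by decide +kernel) (by decide +kernel)
    (by decide +kernel) odd28 (by rw [hc]; decide) r d hd (by rw [hc]; exact hdr) (by omega)
  rwa [hc'] at this

end Pool.Agent.K1H98.CU
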