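import Mathlib
import Pool.Agent.K1H98.CU.Data

/-!
# Sets given by bit masks
-/

set_option autoImplicit false

open Finset
open Pool.Agent.R47.OddCube

namespace Pool.Agent.K1H98.CU

theorem maskBound (m : ℕ) (h : Finset ℕ) (T c : ℕ) (hh : ∀ x ∈ h, x < 2 ^ m)
    (h0 : 0 ∈ h) (hb : ∀ j < m, 2 ^ j ∈ h)
    (hodd : ∀ n < 2 ^ m, Odd (h.filter fun b => T.testBit (n ^^^ b) = true).card)
    (heven : Even h.card) (hc : ((range (2 ^ m)).filter fun a => T.testBit a = true).card = c)
    (r d : ℕ) (hd : Even d) (hdr : h.card * 2 ^ r ≤ d) (hMd : m + r + 1 ≤ d) :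
    (2 ^ (m + r) - c) * 2 ^ (d - 1 - (m + r)) ≤ alphaOd (cube d) := by
  have key := pairBound m h ((range (2 ^ m)).filter fun a => T.testBit a = true) hh
    (fun x hx => mem_range.1 (mem_filter.1 hx).1) h0 hb ?_ heven r d hd hdr hMd
  · rwa [hc] at key
  · intro n hn
    have hcancel : ∀ a : ℕ, n ^^^ (n ^^^ a) = a := fun a => by
      rw [← Nat.xor_assoc, Nat.xor_self, Nat.zero_xor]
    have h1 : (((range (2 ^ m)).filter fun a => T.testBit a = true).filter
        fun a => n ^^^ a ∈ h).card = (h.filter fun b => T.testBit (n ^^^ b) = true).card := by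
      refine card_bij' (fun a _ => n ^^^ a) (fun b _ => n ^^^ b) ?_ ?_ ?_ ?_
      · intro a ha
        rw [mem_filter, mem_filter] at ha
        rw [mem_filter, hcancel]
        exact ⟨ha.2, ha.1.2⟩
      · intro b hb'
        rw [mem_filter] at hb'
        rw [mem_filter, mem_filter, hcancel]
        exact ⟨⟨mem_range.2 (Nat.xor_lt_two_pow hn (hh b hb'.1)), hb'.2⟩, hb'.1⟩
      · intro a _
        exact hcancel a
      · intro b _
        exact hcancel b
    rw [h1]
    exact hodd n hn

end Pool.Agent.K1H98.CU
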