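import Mathlib
import Pool.Agent.K1H98.CU.Mask

/-!
# A set of 96 elements of `𝔽₂^10` for the twelve vectors `0, e₁, …, e₁₀, e₁ + ⋯ + e₁₀`
-/

set_option autoImplicit false

open Finset
open Pool.Agent.R47.OddCube

namespace Pool.Agent.K1H98.CU

def hTwelve : Finset ℕ := {0, 1, 2, 4, 8, 16, 32, 64, 128, 256, 512, 1023}

def mTwelve : ℕ := 90237140298247439776579630020329602918049640270827230733612296949111154112586519837677906376298075363640249807078385367105997173700863699101464960021919732037232108207740219714520579631217378206251013108882762727725584224414201251083211996304888963053659864495501588124173794716906442270739508953989456658792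

theorem oddTwelve : ∀ n < 2 ^ 10, Odd (hTwelve.filter fun b => mTwelve.testBit (n ^^^ b) = true).card := by
  decide +kernel

theorem cardTwelve : ((range (2 ^ 10)).filter fun a => mTwelve.testBit a = true).card = 96 := by
  decide +kernel

theorem boundTwelve (r d : ℕ) (hd : Even d) (hdr : 12 * 2 ^ r ≤ d) :
    (2 ^ (10 + r) - 96) * 2 ^ (d - 1 - (10 + r)) ≤ alphaOd (cube d) := by
  have hc : hTwelve.card = 12 := by decide +kernel
  have h1 : r < 2 ^ r := Nat.lt_two_pow_self
  exact maskBound 10 hTwelve mTwelve 96 (by decide +kernel) (by decide +kernel)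
    (by decide +kernel) oddTwelve (by rw [hc]; decide) cardTwelve r d hd (by rw [hc]; exact hdr) (by omega)

end Pool.Agent.K1H98.CU
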